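import Mathlib

set_option autoImplicit false
set_option linter.unusedSectionVars false

namespace Pool.Agent.H.MP_114ef8_mp

open MeasureTheory Real Filter Topology Module
open scoped ENNReal MeasureTheory

variable {V : Type} [NormedAddCommGroup V] [InnerProductSpace ℝ V] [FiniteDimensional ℝ V]
  [MeasurableSpace V] [BorelSpace V]

/-- weight at scale t -/
noncomputable def wt (r t : ℝ) (ξ : V) : ℝ := (t ^ finrank ℝ V)⁻¹ * (1 + ‖ξ‖ / t) ^ (-r)

noncomputable def Z (V : Type) [NormedAddCommGroup V] [InnerProductSpace ℝ V] [FiniteDimensional ℝ V]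
  [MeasurableSpace V] [BorelSpace V] (r : ℝ) : ℝ := ∫ ξ : V, (1 + ‖ξ‖) ^ (-r)

noncomputable def nu (V : Type) [NormedAddCommGroup V] [InnerProductSpace ℝ V] [FiniteDimensional ℝ V]
  [MeasurableSpace V] [BorelSpace V] (r t : ℝ) : Measure V :=
  volume.withDensity fun ξ => ENNReal.ofReal ((Z V r)⁻¹ * wt r t ξ)

variable {r t : ℝ}

lemma one_add_cont (r : ℝ) (ht : 0 < t) : Continuous fun ξ : V => (1 + ‖ξ‖ / t) ^ (-r) :=
  (by fun_prop : Continuous fun ξ : V => 1 + ‖ξ‖ / t).rpow_const fun _ => Or.inl (by positivity)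

lemma wt_cont (r : ℝ) (ht : 0 < t) : Continuous (wt (V := V) r t) := continuous_const.mul (one_add_cont r ht)

omit [FiniteDimensional ℝ V] [MeasurableSpace V] [BorelSpace V] in
lemma wt_nonneg (r : ℝ) (ht : 0 < t) (ξ : V) : 0 ≤ wt r t ξ := by unfold wt; positivity

lemma Z_pos (hr : (finrank ℝ V : ℝ) < r) : 0 < Z V r :=
  integral_pos_of_integrable_nonneg_nonzero (x := 0) (by simpa using one_add_cont (V := V) r one_pos)
    (integrable_one_add_norm hr) (fun _ => by positivity) (by simp)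

lemma wt_int (hr : (finrank ℝ V : ℝ) < r) (ht : 0 < t) : Integrable (wt (V := V) r t) ∧ ∫ ξ : V, wt r t ξ = Z V r := by
  have e : wt (V := V) r t = fun ξ => (t ^ finrank ℝ V)⁻¹ * (fun η : V => (1 + ‖η‖) ^ (-r)) (t⁻¹ • ξ) := by
    ext ξ
    simp only [wt, norm_smul, norm_inv, Real.norm_of_nonneg ht.le, div_eq_inv_mul]
  rw [e]
  refine ⟨((integrable_one_add_norm hr).comp_smul (inv_ne_zero ht.ne')).const_mul _, ?_⟩
  rw [integral_const_mul, Measure.integral_comp_inv_smul_of_nonneg volume (fun η : V => (1 + ‖η‖) ^ (-r)) ht.le,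
    smul_eq_mul, Z]
  field_simp

lemma nu_lint (ht : 0 < t) {H : V → ℝ≥0∞} (hH : Measurable H) :
    ∫⁻ ξ, H ξ ∂nu V r t = ∫⁻ ξ, ENNReal.ofReal ((Z V r)⁻¹ * wt r t ξ) * H ξ := by
  exact lintegral_withDensity_eq_lintegral_mul _ (continuous_const.mul (wt_cont r ht)).measurable.ennreal_ofReal hH

lemma nu_prob (hr : (finrank ℝ V : ℝ) < r) (ht : 0 < t) : IsProbabilityMeasure (nu V r t) := by
  have hZ := Z_pos (V := V) hr
  constructor
  rw [← lintegral_one, nu_lint ht measurable_const]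
  simp only [mul_one]
  rw [← ofReal_integral_eq_lintegral_ofReal ((wt_int hr ht).1.const_mul _)
    (Eventually.of_forall fun ξ => mul_nonneg (by positivity) (wt_nonneg r ht ξ)), integral_const_mul,
    (wt_int hr ht).2, inv_mul_cancel₀ hZ.ne', ENNReal.ofReal_one]

noncomputable def mom (a : ℝ) (μ : Measure V) : ℝ≥0∞ := ∫⁻ ξ, ENNReal.ofReal (‖ξ‖ ^ a) ∂μ

lemma mom_meas {a : ℝ} (ha : 0 ≤ a) : Measurable fun ξ : V => ENNReal.ofReal (‖ξ‖ ^ a) :=
  (continuous_norm.rpow_const fun _ => Or.inr ha).measurable.ennreal_ofReal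

lemma mom_nu {a : ℝ} (ha : 0 ≤ a) (hr : (finrank ℝ V : ℝ) < r - a) (ht : 0 < t) :
    mom a (nu V r t) ≤ ENNReal.ofReal (Z V (r - a) / Z V r * t ^ a) := by
  have hZ := Z_pos (V := V) (r := r) (by linarith)
  rw [mom, nu_lint ht (mom_meas ha)]
  have e : Z V (r - a) / Z V r * t ^ a = ∫ ξ : V, (Z V r)⁻¹ * t ^ a * wt (r - a) t ξ := by
    rw [integral_const_mul, (wt_int hr ht).2]; ring
  rw [e, ofReal_integral_eq_lintegral_ofReal ((wt_int hr ht).1.const_mul _)
    (Eventually.of_forall fun ξ => mul_nonneg (by positivity) (wt_nonneg _ ht ξ))]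
  refine lintegral_mono fun ξ => ?_
  simp only
  rw [← ENNReal.ofReal_mul (mul_nonneg (by positivity) (wt_nonneg _ ht ξ))]
  apply ENNReal.ofReal_le_ofReal
  unfold wt
  have h1 : ‖ξ‖ ^ a ≤ t ^ a * (1 + ‖ξ‖ / t) ^ a := by
    rw [← mul_rpow ht.le (by positivity)]
    refine rpow_le_rpow (norm_nonneg _) ?_ ha
    rw [mul_add, mul_div_cancel₀ _ ht.ne']
    linarith
  rw [show -(r - a) = -r + a by ring, rpow_add (by positivity)]
  calc _ ≤ (Z V r)⁻¹ * ((t ^ finrank ℝ V)⁻¹ * (1 + ‖ξ‖ / t) ^ (-r)) * (t ^ a * (1 + ‖ξ‖ / t) ^ a) := by gcongr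
    _ = _ := by ring

lemma mom_conv {a : ℝ} (ha : 0 ≤ a) (ha1 : a ≤ 1) (μ ν : Measure V) [IsProbabilityMeasure μ]
    [IsProbabilityMeasure ν] : mom a (μ ∗ ν) ≤ mom a μ + mom a ν := by
  rw [mom, Measure.lintegral_conv (mom_meas ha)]
  calc _ ≤ ∫⁻ x, (ENNReal.ofReal (‖x‖ ^ a) + mom a ν) ∂μ := by
        refine lintegral_mono fun x => ?_
        calc _ ≤ ∫⁻ y, (ENNReal.ofReal (‖x‖ ^ a) + ENNReal.ofReal (‖y‖ ^ a)) ∂ν := by
              refine lintegral_mono fun y => ?_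
              rw [← ENNReal.ofReal_add (by positivity) (by positivity)]
              apply ENNReal.ofReal_le_ofReal
              exact (rpow_le_rpow (norm_nonneg _) (norm_add_le x y) ha).trans
                (Real.rpow_add_le_add_rpow (norm_nonneg _) (norm_nonneg _) ha ha1)
          _ = _ := by rw [lintegral_add_left measurable_const]; simp [mom]
    _ = _ := by rw [lintegral_add_right _ measurable_const]; simp [mom]

lemma conv_low (hr : (finrank ℝ V : ℝ) < r) (ht : 0 < t) {a B R : ℝ} (ha : 0 < a) (hR : 0 < R) (_hB : 0 ≤ B)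
    (hRB : 2 * B ≤ R ^ a) (σ : Measure V) [IsProbabilityMeasure σ] (hσ : mom a σ ≤ ENNReal.ofReal (B * t ^ a))
    {H : V → ℝ≥0∞} (hH : Measurable H) :
    ENNReal.ofReal ((1 + R) ^ (-r) / 2) * ∫⁻ ξ, H ξ ∂nu V r t ≤ ∫⁻ ξ, H ξ ∂(nu V r t ∗ σ) := by
  have := nu_prob hr ht
  have hZ := Z_pos (V := V) hr
  have hr0 : 0 ≤ r := le_trans (Nat.cast_nonneg _) hr.le
  rw [Measure.conv_comm, Measure.lintegral_conv hH]
  have h1 : ∀ x : V, ENNReal.ofReal ((1 + ‖x‖ / t) ^ (-r)) * ∫⁻ ξ, H ξ ∂nu V r t ≤ ∫⁻ y, H (x + y) ∂nu V r t := by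
    intro x
    rw [nu_lint ht hH, nu_lint ht (H := fun y => H (x + y)) (by fun_prop), ← lintegral_add_left_eq_self _ x,
      ← lintegral_const_mul' _ _ ENNReal.ofReal_ne_top]
    refine lintegral_mono fun y => ?_
    simp only
    rw [← mul_assoc, ← ENNReal.ofReal_mul (by positivity)]
    refine mul_le_mul_left (ENNReal.ofReal_le_ofReal ?_) _
    unfold wt
    have : (1 + ‖x‖ / t) ^ (-r) * (1 + ‖x + y‖ / t) ^ (-r) ≤ (1 + ‖y‖ / t) ^ (-r) := by
      rw [← mul_rpow (by positivity) (by positivity)]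
      refine rpow_le_rpow_of_nonpos (by positivity) ?_ (by linarith)
      have h2 : ‖y‖ ≤ ‖x‖ + ‖x + y‖ := by
        have := norm_sub_le (x + y) x
        rw [add_sub_cancel_left] at this
        linarith
      have h3 : ‖y‖ / t ≤ ‖x‖ / t + ‖x + y‖ / t := by rw [← add_div]; gcongr
      have h4 : 0 ≤ ‖x‖ / t * (‖x + y‖ / t) := by positivity
      nlinarith
    calc _ = (Z V r)⁻¹ * ((t ^ finrank ℝ V)⁻¹ * ((1 + ‖x‖ / t) ^ (-r) * (1 + ‖x + y‖ / t) ^ (-r))) := by ring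
      _ ≤ _ := by gcongr
  refine le_trans ?_ (lintegral_mono h1)
  rw [lintegral_mul_const _ (one_add_cont r ht).measurable.ennreal_ofReal]
  gcongr
  have hc : 0 < (1 + R) ^ (-r) := by positivity
  have h2 : ∀ x : V, ENNReal.ofReal ((1 + R) ^ (-r)) ≤ ENNReal.ofReal ((1 + ‖x‖ / t) ^ (-r)) +
      ENNReal.ofReal ((1 + R) ^ (-r) / (R * t) ^ a) * ENNReal.ofReal (‖x‖ ^ a) := by
    intro x
    rcases le_total (‖x‖ / t) R with h | h
    · exact le_add_right (ENNReal.ofReal_le_ofReal (rpow_le_rpow_of_nonpos (by positivity) (by linarith)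
        (by linarith)))
    · refine le_add_left ?_
      rw [← ENNReal.ofReal_mul (by positivity)]
      apply ENNReal.ofReal_le_ofReal
      rw [le_div_iff₀ ht] at h
      rw [div_mul_eq_mul_div, le_div_iff₀ (by positivity)]
      gcongr
  have h3 := lintegral_mono (μ := σ) h2
  rw [lintegral_add_left (one_add_cont r ht).measurable.ennreal_ofReal,
    lintegral_const_mul' _ _ ENNReal.ofReal_ne_top, lintegral_const, measure_univ, mul_one] at h3
  have h4 : ENNReal.ofReal ((1 + R) ^ (-r) / (R * t) ^ a) * ∫⁻ x, ENNReal.ofReal (‖x‖ ^ a) ∂σ ≤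
      ENNReal.ofReal ((1 + R) ^ (-r) / 2) := by
    refine (mul_le_mul_right hσ _).trans ?_
    rw [← ENNReal.ofReal_mul (by positivity)]
    apply ENNReal.ofReal_le_ofReal
    rw [mul_rpow hR.le ht.le, div_mul_eq_mul_div, div_le_div_iff₀ (by positivity) (by positivity)]
    have : 0 < t ^ a := by positivity
    nlinarith [mul_le_mul_of_nonneg_left hRB (mul_pos hc this).le]
  have h5 : ENNReal.ofReal ((1 + R) ^ (-r)) =
      ENNReal.ofReal ((1 + R) ^ (-r) / 2) + ENNReal.ofReal ((1 + R) ^ (-r) / 2) := by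
    rw [← ENNReal.ofReal_add (by positivity) (by positivity), add_halves]
  rw [h5] at h3
  exact (ENNReal.add_le_add_iff_right ENNReal.ofReal_ne_top).1 (h3.trans (by gcongr))

noncomputable def sig (r t0 : ℝ) : ℕ → Measure V
  | 0 => Measure.dirac 0
  | j + 1 => nu V r (t0 * 2 ^ j) ∗ sig r t0 j

theorem chain (hr : (finrank ℝ V : ℝ) < r) : ∃ c : ℝ, 0 < c ∧ ∀ t0 : ℝ, 0 < t0 → ∃ μ : ℕ → Measure V,
    (∀ j, IsProbabilityMeasure (μ j)) ∧ (∀ j, ∃ ν : Measure V, IsProbabilityMeasure ν ∧ μ (j + 1) = ν ∗ μ j) ∧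
    ∀ (j : ℕ) (H : V → ℝ≥0∞), Measurable H →
      ∫⁻ ξ, ENNReal.ofReal (c * wt r (t0 * 2 ^ j) ξ) * H ξ ≤ ∫⁻ ξ, H ξ ∂μ j := by
  have hZ := Z_pos (V := V) hr
  set a := min 1 ((r - finrank ℝ V) / 2) with hadef
  have ha : 0 < a := lt_min one_pos (by linarith)
  have ha1 : a ≤ 1 := min_le_left _ _
  have ha2 : (finrank ℝ V : ℝ) < r - a := by linarith [min_le_right 1 ((r - finrank ℝ V) / 2)]
  have hZa := Z_pos (V := V) ha2
  have h2a : 1 < (2 : ℝ) ^ a := one_lt_rpow (by norm_num) ha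
  set m := Z V (r - a) / Z V r with hm
  have hm0 : 0 < m := by positivity
  set B := m / (2 ^ a - 1) with hB
  have hB0 : 0 < B := div_pos hm0 (by linarith)
  set R := (2 * B) ^ a⁻¹ with hR
  have hR0 : 0 < R := by positivity
  have hRB : 2 * B ≤ R ^ a := (rpow_inv_rpow (by positivity) ha.ne').ge
  refine ⟨(1 + R) ^ (-r) / 2 * (Z V r)⁻¹, by positivity, fun t0 ht0 => ?_⟩
  have hs : ∀ j, IsProbabilityMeasure (sig (V := V) r t0 j) ∧
      mom a (sig (V := V) r t0 j) ≤ ENNReal.ofReal (B * (t0 * 2 ^ j) ^ a) := by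
    intro j
    induction j with
    | zero => exact ⟨by unfold sig; infer_instance, by simp [sig, mom, zero_rpow ha.ne']⟩
    | succ j ih =>
      obtain ⟨h1, h2⟩ := ih
      have ht : 0 < t0 * 2 ^ j := by positivity
      have := nu_prob (V := V) hr ht
      refine ⟨by unfold sig; infer_instance, ?_⟩
      refine (mom_conv ha.le ha1 _ _).trans ((add_le_add (mom_nu ha.le ha2 ht) h2).trans (le_of_eq ?_))
      rw [← ENNReal.ofReal_add (by positivity) (by positivity), pow_succ, ← mul_assoc,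
        mul_rpow ht.le (by norm_num), ← hm]
      congr 1
      have : m = B * (2 ^ a - 1) := by rw [hB, div_mul_cancel₀ _ (by linarith)]
      rw [this]; ring
  refine ⟨fun j => sig r t0 (j + 1), fun j => (hs _).1,
    fun j => ⟨_, nu_prob hr (by positivity : 0 < t0 * 2 ^ (j + 1)), rfl⟩, fun j H hH => ?_⟩
  have ht : 0 < t0 * 2 ^ j := by positivity
  have := (hs j).1
  refine le_trans (le_of_eq ?_) (conv_low hr ht ha hR0 hB0.le hRB _ (hs j).2 hH)
  rw [nu_lint ht hH, ← lintegral_const_mul' _ _ ENNReal.ofReal_ne_top]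
  congr 1; ext ξ
  rw [← mul_assoc, ← ENNReal.ofReal_mul (by positivity), mul_assoc]

end Pool.Agent.H.MP_114ef8_mp
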