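import Pool.Agent.H.MP_114ef8_mp.A

set_option autoImplicit false
set_option linter.unusedSectionVars false

namespace Pool.Agent.H.MP_114ef8_mp

open MeasureTheory Real Filter Topology Module
open scoped ENNReal MeasureTheory RealInnerProductSpace ComplexConjugate

variable {V : Type} [NormedAddCommGroup V] [InnerProductSpace ℝ V] [FiniteDimensional ℝ V]
  [MeasurableSpace V] [BorelSpace V]

noncomputable def ch (ξ x : V) : ℂ := Complex.exp (((-2 * π * ⟪x, ξ⟫ : ℝ) : ℂ) * Complex.I)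

lemma ch_norm (ξ x : V) : ‖ch ξ x‖ = 1 := Complex.norm_exp_ofReal_mul_I _

lemma ch_cont : Continuous fun p : V × V => ch p.1 p.2 := by unfold ch; fun_prop

lemma ch_cont1 (x : V) : Continuous fun ξ : V => ch ξ x := by unfold ch; fun_prop

lemma ch_cont2 (ξ : V) : Continuous fun x : V => ch ξ x := by unfold ch; fun_prop

lemma ch_add (η ξ x : V) : ch (η + ξ) x = ch ξ x * ch η x := by
  unfold ch
  rw [← Complex.exp_add, inner_add_right]
  congr 1; push_cast; ring

lemma ch_conj (ξ x : V) : conj (ch ξ x) * ch ξ x = 1 := by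
  rw [Complex.conj_mul', ch_norm]; simp

noncomputable def FT (m : Measure V) (u : V → ℂ) (ξ : V) : ℂ := ∫ x, ch ξ x * u x ∂m

def ON (m : Measure V) {k : ℕ} (u : Fin k → V → ℂ) : Prop :=
  (∀ i, MemLp (u i) 2 m) ∧ ∀ i j, ∫ x, conj (u i x) * u j x ∂m = if i = j then 1 else 0

noncomputable def Phi (m μ : Measure V) (u : V → ℂ) : ℝ≥0∞ := ∫⁻ ξ, ENNReal.ofReal (‖FT m u ξ‖ ^ 2) ∂μ

variable {m : Measure V} [IsFiniteMeasure m]

lemma FT_cont {u : V → ℂ} (hu : Integrable u m) : Continuous (FT m u) := by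
  unfold FT
  refine continuous_of_dominated (bound := fun x => ‖u x‖)
    (fun ξ => (ch_cont2 ξ).aestronglyMeasurable.mul hu.1) (fun ξ => Eventually.of_forall fun x => ?_) hu.norm
    (Eventually.of_forall fun x => (ch_cont1 x).mul continuous_const)
  rw [norm_mul, ch_norm, one_mul]

lemma FT_meas {u : V → ℂ} (hu : MemLp u 2 m) : Measurable fun ξ => ENNReal.ofReal (‖FT m u ξ‖ ^ 2) :=
  ((FT_cont (hu.integrable one_le_two)).norm.pow 2).measurable.ennreal_ofReal

lemma inner_toLp {u v : V → ℂ} (hu : MemLp u 2 m) (hv : MemLp v 2 m) :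
    inner ℂ (hu.toLp u) (hv.toLp v) = ∫ x, conj (u x) * v x ∂m := by
  rw [L2.inner_def]
  refine integral_congr_ae ?_
  filter_upwards [hu.coeFn_toLp, hv.coeFn_toLp] with x h1 h2
  rw [h1, h2, RCLike.inner_apply, mul_comm]

lemma bessel {k : ℕ} {u : Fin k → V → ℂ} (hu : ON m u) (ξ : V) : ∑ i, ‖FT m (u i) ξ‖ ^ 2 ≤ m.real Set.univ := by
  have he : MemLp (fun x => conj (ch ξ x)) 2 m :=
    MemLp.of_bound (Complex.continuous_conj.comp (ch_cont2 ξ)).aestronglyMeasurable 1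
      (Eventually.of_forall fun x => by rw [Complex.norm_conj, ch_norm])
  have ho : Orthonormal ℂ fun i => (hu.1 i).toLp (u i) := by
    rw [orthonormal_iff_ite]
    intro i j
    rw [inner_toLp, hu.2]
  have h := ho.sum_inner_products_le (he.toLp _) (s := Finset.univ)
  have e1 : ∀ i, ‖inner ℂ ((hu.1 i).toLp (u i)) (he.toLp _)‖ = ‖FT m (u i) ξ‖ := by
    intro i
    rw [norm_inner_symm, inner_toLp]
    simp [FT]
  have e2 : ‖he.toLp _‖ ^ 2 = m.real Set.univ := by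
    rw [← inner_self_eq_norm_sq (𝕜 := ℂ), inner_toLp]
    simp only [Complex.conj_conj, mul_comm (ch ξ _), ch_conj]
    simp
  simpa only [e1, e2] using h

def P (m : Measure V) (k : ℕ) (μ : Measure V) (c : ℝ≥0∞) : Prop :=
  ∃ u : Fin k → V → ℂ, ON m u ∧ c ≤ ∑ i, Phi m μ (u i)

lemma sum_Phi_le {k : ℕ} {u : Fin k → V → ℂ} (hu : ON m u) (μ : Measure V) [IsProbabilityMeasure μ] :
    ∑ i, Phi m μ (u i) ≤ m Set.univ := by
  unfold Phi
  rw [← lintegral_finsetSum _ fun i _ => FT_meas (hu.1 i)]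
  calc _ ≤ ∫⁻ _ξ, m Set.univ ∂μ := by
        refine lintegral_mono fun ξ => ?_
        rw [← ENNReal.ofReal_sum_of_nonneg fun _ _ => by positivity, ← ofReal_measureReal]
        exact ENNReal.ofReal_le_ofReal (bessel hu ξ)
    _ = _ := by simp

lemma P_le {k : ℕ} {μ : Measure V} [IsProbabilityMeasure μ] {c : ℝ≥0∞} (h : P m k μ c) : c ≤ m Set.univ := by
  obtain ⟨u, hu, hc⟩ := h
  exact hc.trans (sum_Phi_le hu μ)

lemma ON_mod {k : ℕ} {u : Fin k → V → ℂ} (hu : ON m u) (η : V) : ON m fun i x => ch η x * u i x := by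
  refine ⟨fun i => (hu.1 i).of_le ((ch_cont2 η).aestronglyMeasurable.mul (hu.1 i).1)
    (Eventually.of_forall fun x => by rw [norm_mul, ch_norm, one_mul]), fun i j => ?_⟩
  rw [← hu.2]
  congr 1; ext x
  rw [map_mul, mul_mul_mul_comm, ch_conj, one_mul]

lemma P_conv {k : ℕ} {μ ν : Measure V} [IsProbabilityMeasure μ] [IsProbabilityMeasure ν] {c : ℝ≥0∞}
    (h : P m k (ν ∗ μ) c) : P m k μ c := by
  obtain ⟨u, hu, hc⟩ := h
  have e : ∑ i, Phi m (ν ∗ μ) (u i) = ∫⁻ η, ∑ i, Phi m μ (fun x => ch η x * u i x) ∂ν := by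
    have e2 : ∀ i η, Phi m μ (fun x => ch η x * u i x) = ∫⁻ ξ, ENNReal.ofReal (‖FT m (u i) (η + ξ)‖ ^ 2) ∂μ := by
      intro i η
      simp only [Phi, FT, ch_add, mul_assoc]
    simp only [e2]
    rw [lintegral_finsetSum]
    · refine Finset.sum_congr rfl fun i _ => ?_
      rw [Phi, Measure.lintegral_conv (FT_meas (hu.1 i))]
    · intro i _
      exact Measurable.lintegral_prod_right' (f := fun p : V × V => ENNReal.ofReal (‖FT m (u i) (p.1 + p.2)‖ ^ 2))
        ((FT_meas (hu.1 i)).comp measurable_add)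
  have hfin : ∫⁻ η, ∑ i, Phi m μ (fun x => ch η x * u i x) ∂ν ≠ ∞ := by
    rw [← e]
    exact ne_top_of_le_ne_top (measure_ne_top m _) (sum_Phi_le hu _)
  obtain ⟨η, hη⟩ := exists_lintegral_le hfin
  exact ⟨_, ON_mod hu η, hc.trans (e.le.trans hη)⟩

lemma P_succ {k : ℕ} {μ : Measure V} {c b : ℝ≥0∞} (h : P m k μ c)
    (hy : ∀ A : Fin k → V → ℂ, (∀ i, MemLp (A i) 2 m) → ∃ y : V → ℂ, MemLp y 2 m ∧
      ∫ x, conj (y x) * y x ∂m = 1 ∧ (∀ i, ∫ x, conj (A i x) * y x ∂m = 0) ∧ b ≤ Phi m μ y) :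
    P m (k + 1) μ (c + b) := by
  obtain ⟨u, hu, hc⟩ := h
  obtain ⟨y, h1, h2, h3, h4⟩ := hy u hu.1
  refine ⟨Fin.cons y u, ⟨fun i => Fin.cases h1 hu.1 i, fun i j => ?_⟩, ?_⟩
  · refine Fin.cases ?_ (fun i => ?_) i <;> refine Fin.cases ?_ (fun j => ?_) j
    · simpa using h2
    · simp only [Fin.cons_zero, Fin.cons_succ]
      rw [if_neg (Fin.succ_ne_zero j).symm]
      have := congrArg conj (h3 j)
      rw [← integral_conj, map_zero] at this
      rw [← this]
      congr 1; ext x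
      simp [mul_comm]
    · simp only [Fin.cons_zero, Fin.cons_succ]
      rw [if_neg (Fin.succ_ne_zero i), h3]
    · simp only [Fin.cons_succ, Fin.succ_inj]
      exact hu.2 i j
  · rw [Fin.sum_univ_succ, add_comm c]
    simp only [Fin.cons_zero, Fin.cons_succ]
    exact add_le_add h4 hc

theorem hlt (μ : ℕ → Measure V) (h1 : ∀ j, IsProbabilityMeasure (μ j))
    (h2 : ∀ j, ∃ ν : Measure V, IsProbabilityMeasure ν ∧ μ (j + 1) = ν ∗ μ j) (N : ℕ) (J : ℕ → ℕ)
    (hJ : ∀ k, k + 1 < N → J (k + 1) ≤ J k) (b : ℕ → ℝ≥0∞)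
    (hy : ∀ k < N, ∀ A : Fin k → V → ℂ, (∀ i, MemLp (A i) 2 m) → ∃ y : V → ℂ, MemLp y 2 m ∧
      ∫ x, conj (y x) * y x ∂m = 1 ∧ (∀ i, ∫ x, conj (A i x) * y x ∂m = 0) ∧ b k ≤ Phi m (μ (J k)) y) :
    ∑ k ∈ Finset.range N, b k ≤ m Set.univ := by
  have down : ∀ k c j i, P m k (μ (j + i)) c → P m k (μ j) c := by
    intro k c j i
    induction i with
    | zero => exact id
    | succ i ih =>
      intro h
      obtain ⟨ν, hν, e⟩ := h2 (j + i)
      have := h1 (j + i)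
      rw [← add_assoc, e] at h
      exact ih (P_conv h)
  have key : ∀ k < N, P m (k + 1) (μ (J k)) (∑ i ∈ Finset.range (k + 1), b i) := by
    intro k
    induction k with
    | zero =>
      intro hk
      rw [Finset.sum_range_succ]
      exact P_succ ⟨Fin.elim0, ⟨fun i => i.elim0, fun i => i.elim0⟩, by simp⟩ (hy 0 hk)
    | succ k ih =>
      intro hk
      rw [Finset.sum_range_succ]
      refine P_succ ?_ (hy _ hk)
      obtain ⟨i, hi⟩ := Nat.exists_eq_add_of_le (hJ k hk)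
      exact down _ _ _ i (hi ▸ ih (by omega))
  rcases N with _ | N
  · simp
  · have := h1 (J N)
    exact P_le (key N (by omega))

end Pool.Agent.H.MP_114ef8_mp
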