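import Mathlib

set_option autoImplicit false

namespace Pool.Agent.H.MP_114ef8_mp

open MeasureTheory Real
open scoped FourierTransform ComplexConjugate

variable {X : Type} [NormedAddCommGroup X] [InnerProductSpace ℝ X] [FiniteDimensional ℝ X]
  [MeasurableSpace X] [BorelSpace X]

/-- complex L2 for Lebesgue measure -/
noncomputable abbrev LL (X : Type) [NormedAddCommGroup X] [InnerProductSpace ℝ X] [FiniteDimensional ℝ X]
  [MeasurableSpace X] [BorelSpace X] := Lp ℂ 2 (volume : Measure X)

/-- the L2 Fourier transform as a function -/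
noncomputable def hat (f : LL X) : X → ℂ := (𝓕 f : LL X)

/-- form domain: finite kinetic energy and finite negative-part energy -/
def InDom (s : ℝ) (V : X → ℝ) (f : LL X) : Prop :=
  Integrable (fun ξ : X => (2 * π * ‖ξ‖) ^ (2 * s) * ‖hat f ξ‖ ^ 2) ∧
    Integrable (fun x : X => max (-V x) 0 * ‖f x‖ ^ 2)

/-- the sesquilinear form of the operator -/
noncomputable def form (s : ℝ) (V : X → ℝ) (g f : LL X) : ℂ :=
  (∫ ξ : X, (((2 * π * ‖ξ‖) ^ (2 * s) : ℝ) : ℂ) * (conj (hat g ξ) * hat f ξ)) -
  ∫ x : X, (V x : ℂ) * (conj (g x) * f x)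

/-- eigenvalue equation of the operator defined by the form -/
def IsEig (s : ℝ) (V : X → ℝ) (f : LL X) (e : ℝ) : Prop :=
  InDom s V f ∧ ∀ g, InDom s V g → form s V g f = e * ∫ x : X, conj (g x) * f x

/-- orthonormal family -/
def IsON {ι : Type} (f : ι → LL X) : Prop := Orthonormal ℂ f

end Pool.Agent.H.MP_114ef8_mp
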