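import Pool.Agent.H.MP_114ef8_mp.B
import Pool.Agent.H.MP_114ef8_mp.Defs

set_option autoImplicit false
set_option linter.unusedSectionVars false

namespace Pool.Agent.H.MP_114ef8_mp

open MeasureTheory Real Filter Topology Module
open scoped ENNReal MeasureTheory RealInnerProductSpace ComplexConjugate FourierTransform SchwartzMap ContDiff

variable {V : Type} [NormedAddCommGroup V] [InnerProductSpace ℝ V] [FiniteDimensional ℝ V]
  [MeasurableSpace V] [BorelSpace V]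

lemma swap {m1 m2 : Measure V} [SFinite m1] [SFinite m2] {a b : V → ℂ} (ha : Integrable a m1)
    (hb : Integrable b m2) {k : V → V → ℂ} (hk : Continuous fun p : V × V => k p.1 p.2) (hk1 : ∀ x ξ, ‖k x ξ‖ = 1) :
    ∫ x, a x * ∫ ξ, k x ξ * b ξ ∂m2 ∂m1 = ∫ ξ, b ξ * ∫ x, k x ξ * a x ∂m1 ∂m2 := by
  have hi : Integrable (Function.uncurry fun x ξ => k x ξ * (a x * b ξ)) (m1.prod m2) :=
    (ha.mul_prod hb).bdd_mul (c := 1) hk.aestronglyMeasurable (Eventually.of_forall fun p => (hk1 _ _).le)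
  have := integral_integral_swap hi
  simp only [← integral_const_mul]
  calc _ = ∫ x, ∫ ξ, k x ξ * (a x * b ξ) ∂m2 ∂m1 := by
        congr 1; ext x; congr 1; ext ξ; ring
    _ = _ := by
        rw [this]; congr 1; ext x; congr 1; ext ξ; ring

lemma inv_ae (f : LL V) (hf : Integrable (𝓕 f : LL V)) :
    ∀ᵐ x, f x = ∫ ξ, conj (ch ξ x) * (𝓕 f : LL V) ξ := by
  have hk : Continuous fun p : V × V => conj (ch p.2 p.1) :=
    Complex.continuous_conj.comp (ch_cont.comp continuous_swap)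
  have hc : Continuous fun x => ∫ ξ, conj (ch ξ x) * (𝓕 f : LL V) ξ := by
    refine continuous_of_dominated (bound := fun ξ => ‖(𝓕 f : LL V) ξ‖)
      (fun x => (Complex.continuous_conj.comp (ch_cont1 x)).aestronglyMeasurable.mul hf.1)
      (fun x => Eventually.of_forall fun ξ => ?_) hf.norm
      (Eventually.of_forall fun ξ => (Complex.continuous_conj.comp (ch_cont2 ξ)).mul continuous_const)
    rw [norm_mul, Complex.norm_conj, ch_norm, one_mul]
  refine ae_eq_of_integral_contDiff_smul_eq ((Lp.memLp f).locallyIntegrable one_le_two) hc.locallyIntegrable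
    fun g hg hs => ?_
  have k1 : HasCompactSupport fun x => ((g x : ℝ) : ℂ) := hs.comp_left (g := fun x : ℝ => (x : ℂ)) (by simp)
  have k2 : ContDiff ℝ ∞ fun x => ((g x : ℝ) : ℂ) := Complex.ofRealCLM.contDiff.comp hg
  set G : 𝓢(V, ℂ) := k1.toSchwartzMap k2 with hG
  have hv : ∀ x, G x = ((g x : ℝ) : ℂ) := fun _ => rfl
  have h1 := congrArg (fun T : 𝓢'(V, ℂ) => T G) (Lp.fourierInv_toTemperedDistribution_eq (𝓕 f : LL V))
  simp only [TemperedDistribution.fourierInv_apply, Lp.toTemperedDistribution_apply,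
    FourierTransform.fourierInv_fourier_eq] at h1
  have h2 := swap (G.integrable (μ := volume)) hf (k := fun x ξ => conj (ch ξ x)) hk
    (fun x ξ => by rw [Complex.norm_conj, ch_norm])
  calc ∫ x, g x • f x = ∫ x, G x • f x := by simp [hv]
    _ = ∫ ξ, (𝓕 f : LL V) ξ * ∫ x, conj (ch ξ x) * G x := by
      rw [← h1]
      congr 1; ext ξ
      rw [smul_eq_mul, mul_comm, SchwartzMap.fourierInv_coe, Real.fourierInv_eq']
      congr 2; ext x
      rw [smul_eq_mul, ch, ← Complex.exp_conj]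
      congr 2
      simp [map_ofNat]
    _ = _ := by rw [← h2]; simp [hv]

/-- weighted square integrability -/
def WI (w : V → ℝ) (a : V → ℂ) : Prop := AEStronglyMeasurable a volume ∧ Integrable fun x => w x * ‖a x‖ ^ 2

variable {w : V → ℝ}

lemma WI.cross (h0 : ∀ x, 0 ≤ w x) (hw : AEStronglyMeasurable w volume) {a b : V → ℂ} (ha : WI w a) (hb : WI w b) :
    Integrable fun x => (w x : ℂ) * (conj (a x) * b x) := by
  refine (ha.2.add hb.2).mono' ((Complex.continuous_ofReal.comp_aestronglyMeasurable hw).mul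
    ((Complex.continuous_conj.comp_aestronglyMeasurable ha.1).mul hb.1)) (Eventually.of_forall fun x => ?_)
  simp only [norm_mul, Complex.norm_real, Real.norm_of_nonneg (h0 x), Complex.norm_conj, Pi.add_apply]
  nlinarith [mul_nonneg (h0 x) (sq_nonneg (‖a x‖ - ‖b x‖)), mul_nonneg (h0 x) (mul_nonneg (norm_nonneg (a x))
    (norm_nonneg (b x)))]

lemma WI.add (h0 : ∀ x, 0 ≤ w x) (hw : AEStronglyMeasurable w volume) {a b : V → ℂ} (ha : WI w a) (hb : WI w b) :
    WI w fun x => a x + b x := by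
  refine ⟨ha.1.add hb.1, ((ha.2.add hb.2).const_mul 2).mono' (hw.mul ((ha.1.add hb.1).norm.pow 2))
    (Eventually.of_forall fun x => ?_)⟩
  rw [Real.norm_of_nonneg (mul_nonneg (h0 x) (sq_nonneg _))]
  have h1 : ‖a x + b x‖ ^ 2 ≤ 2 * (‖a x‖ ^ 2 + ‖b x‖ ^ 2) := by
    have := pow_le_pow_left₀ (norm_nonneg _) (norm_add_le (a x) (b x)) 2
    nlinarith [sq_nonneg (‖a x‖ - ‖b x‖)]
  simp only [Pi.add_apply]
  nlinarith [mul_le_mul_of_nonneg_left h1 (h0 x)]

lemma WI.sum (h0 : ∀ x, 0 ≤ w x) (hw : AEStronglyMeasurable w volume) {ι : Type} (s : Finset ι) (c : ι → ℂ)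
    {a : ι → V → ℂ} (ha : ∀ i, WI w (a i)) : WI w fun x => ∑ i ∈ s, c i * a i x := by
  classical
  induction s using Finset.induction_on with
  | empty => exact ⟨by simpa using aestronglyMeasurable_const, by simp⟩
  | insert i s hi ih =>
    simp only [Finset.sum_insert hi]
    refine WI.add h0 hw ⟨(ha i).1.const_mul _, ?_⟩ ih
    have := (ha i).2.const_mul (‖c i‖ ^ 2)
    refine this.congr (Eventually.of_forall fun x => ?_)
    simp only [norm_mul]; ring

lemma WI.congr {a b : V → ℂ} (ha : WI w a) (h : a =ᵐ[volume] b) : WI w b :=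
  ⟨ha.1.congr h, ha.2.congr (by filter_upwards [h] with x hx; rw [hx])⟩

lemma coe_comb {ι : Type} [Fintype ι] (c : ι → ℂ) (f : ι → LL V) :
    (∑ i, c i • f i : LL V) =ᵐ[volume] fun x => ∑ i, c i * f i x := by
  have h1 := Lp.coeFn_finsetSum Finset.univ fun i => c i • f i
  have h2 : ∀ᵐ x, ∀ i, (c i • f i : LL V) x = c i * f i x := by
    rw [ae_all_iff]
    intro i
    filter_upwards [Lp.coeFn_smul (c i) (f i)] with x hx
    rw [hx]; rfl
  filter_upwards [h1, h2] with x hx h2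
  rw [hx, Finset.sum_apply]
  simp only [h2]

lemma cross_sum (h0 : ∀ x, 0 ≤ w x) (hw : AEStronglyMeasurable w volume) {ι : Type} [Fintype ι] (c : ι → ℂ)
    (f : ι → LL V) (hf : ∀ i, WI w (f i)) {g : V → ℂ} (hg : WI w g) :
    ∫ x, (w x : ℂ) * (conj (g x) * (∑ i, c i • f i : LL V) x) = ∑ i, c i * ∫ x, (w x : ℂ) * (conj (g x) * f i x) := by
  simp only [← integral_const_mul]
  rw [← integral_finsetSum _ fun i _ => (WI.cross h0 hw hg (hf i)).const_mul _]
  refine integral_congr_ae ?_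
  filter_upwards [coe_comb c f] with x hx
  rw [hx, Finset.mul_sum, Finset.mul_sum]
  exact Finset.sum_congr rfl fun i _ => by ring

lemma cross_self (a : V → ℂ) : ∫ x, (w x : ℂ) * (conj (a x) * a x) = ((∫ x, w x * ‖a x‖ ^ 2 : ℝ) : ℂ) := by
  rw [← integral_complex_ofReal]
  congr 1; ext x
  rw [Complex.conj_mul']; push_cast; rfl

noncomputable def p (r : ℝ) (ξ : V) : ℝ := (2 * π * ‖ξ‖) ^ r

variable {r : ℝ}

lemma p_nonneg (r : ℝ) (ξ : V) : 0 ≤ p r ξ := rpow_nonneg (by positivity) _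

lemma p_cont (hr : 0 ≤ r) : Continuous (p (V := V) r) :=
  (by fun_prop : Continuous fun ξ : V => 2 * π * ‖ξ‖).rpow_const fun _ => Or.inr hr

lemma phi_cont (hr : 0 ≤ r) {E : ℝ} (hE : 0 < E) : Continuous fun ξ : V => 1 / (p r ξ + E) :=
  continuous_const.div ((p_cont hr).add continuous_const) fun ξ => by have := p_nonneg r ξ; positivity

lemma phi_le (hr : 0 ≤ r) {κ t : ℝ} (ht : 0 < t) (h1 : t ≤ κ) (h2 : κ ≤ 2 * t) (ξ : V) :
    κ ^ (r - finrank ℝ V) * (1 / (p r ξ + κ ^ r)) ≤ 2 ^ r * wt r t ξ := by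
  have hκ : 0 < κ := by linarith
  have hp := p_nonneg r ξ
  have e1 : κ ^ r * (1 + ‖ξ‖ / t) ^ r ≤ 2 ^ r * (p r ξ + κ ^ r) := by
    rw [← mul_rpow hκ.le (by positivity)]
    have h3 : κ * (1 + ‖ξ‖ / t) ≤ κ + 2 * π * ‖ξ‖ := by
      have : κ * (‖ξ‖ / t) ≤ 2 * ‖ξ‖ := by
        rw [← mul_div_assoc, div_le_iff₀ ht]; nlinarith [norm_nonneg ξ]
      nlinarith [pi_gt_three, norm_nonneg ξ]
    rcases le_total κ (2 * π * ‖ξ‖) with h | h
    · calc _ ≤ (2 * (2 * π * ‖ξ‖)) ^ r := rpow_le_rpow (by positivity) (by linarith) hr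
        _ = 2 ^ r * p r ξ := by rw [mul_rpow (by norm_num) (by positivity)]; rfl
        _ ≤ _ := by gcongr; exact le_add_of_nonneg_right (by positivity)
    · calc _ ≤ (2 * κ) ^ r := rpow_le_rpow (by positivity) (by linarith) hr
        _ = 2 ^ r * κ ^ r := mul_rpow (by norm_num) hκ.le
        _ ≤ _ := by gcongr; exact le_add_of_nonneg_left hp
  unfold wt
  rw [rpow_sub hκ, rpow_natCast, rpow_neg (by positivity)]
  have e2 : (κ ^ finrank ℝ V)⁻¹ ≤ (t ^ finrank ℝ V)⁻¹ := by gcongr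
  have e3 : κ ^ r * (1 / (p r ξ + κ ^ r)) ≤ 2 ^ r * ((1 + ‖ξ‖ / t) ^ r)⁻¹ := by
    rw [mul_one_div, ← div_eq_mul_inv, div_le_div_iff₀ (by positivity) (by positivity)]
    exact e1
  calc _ = (κ ^ finrank ℝ V)⁻¹ * (κ ^ r * (1 / (p r ξ + κ ^ r))) := by ring
    _ ≤ (t ^ finrank ℝ V)⁻¹ * (2 ^ r * ((1 + ‖ξ‖ / t) ^ r)⁻¹) := by gcongr
    _ = _ := by ring

lemma phi_int (hr : (finrank ℝ V : ℝ) < r) {κ : ℝ} (hκ : 0 < κ) : Integrable fun ξ : V => 1 / (p r ξ + κ ^ r) := by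
  have hr0 : 0 ≤ r := le_trans (Nat.cast_nonneg _) hr.le
  have hc : 0 < κ ^ (r - finrank ℝ V) := by positivity
  refine (((wt_int hr hκ).1.const_mul (2 ^ r)).const_mul (κ ^ (r - finrank ℝ V))⁻¹).mono'
    (phi_cont hr0 (by positivity)).aestronglyMeasurable (Eventually.of_forall fun ξ => ?_)
  have hp := p_nonneg r ξ
  rw [Real.norm_of_nonneg (by positivity), le_inv_mul_iff₀ hc]
  exact phi_le hr0 hκ le_rfl (by linarith) ξ

lemma sq_int (f : LL V) : Integrable fun x => ‖f x‖ ^ 2 := by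
  simpa using (Lp.memLp f).integrable_norm_pow (p := 2) (by norm_num)

lemma norm_sq_eq (f : LL V) : ‖f‖ ^ 2 = ∫ x, ‖f x‖ ^ 2 := by
  rw [← inner_self_eq_norm_sq (𝕜 := ℂ), L2.inner_def]
  simp only [inner_self_eq_norm_sq_to_K]
  norm_cast

lemma amgm {a b q : ℝ} (hq : 0 < q) : a * b ≤ 1 / 2 * (q * a ^ 2) + 1 / 2 * (b ^ 2 * (1 / q)) := by
  rw [← sub_nonneg]
  have : 1 / 2 * (q * a ^ 2) + 1 / 2 * (b ^ 2 * (1 / q)) - a * b = (q * a - b) ^ 2 / (2 * q) := by
    field_simp; ring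
  rw [this]; positivity

lemma F_int (hr : (finrank ℝ V : ℝ) < r) (h : LL V) (hh : WI (p r) h) : Integrable h := by
  have h1 := phi_int hr one_pos
  rw [one_rpow] at h1
  refine (((hh.2.add (sq_int h)).const_mul (1 / 2)).add (h1.const_mul (1 / 2))).mono' hh.1
    (Eventually.of_forall fun ξ => ?_)
  have hp := p_nonneg r ξ
  have := amgm (a := ‖h ξ‖) (b := 1) (q := p r ξ + 1) (by positivity)
  simp only [Pi.add_apply]
  linarith

lemma bdd_ae (hr : (finrank ℝ V : ℝ) < r) (f : LL V) (hf : WI (p r) (𝓕 f : LL V)) : ∃ C, ∀ᵐ x, ‖f x‖ ≤ C := by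
  refine ⟨∫ ξ, ‖(𝓕 f : LL V) ξ‖, ?_⟩
  filter_upwards [inv_ae f (F_int hr _ hf)] with x hx
  rw [hx]
  refine (norm_integral_le_integral_norm _).trans (le_of_eq ?_)
  simp only [norm_mul, Complex.norm_conj, ch_norm, one_mul]

end Pool.Agent.H.MP_114ef8_mp
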