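import Pool.Agent.H.MP_114ef8_mp.C

set_option autoImplicit false
set_option linter.unusedSectionVars false

namespace Pool.Agent.H.MP_114ef8_mp

open MeasureTheory Real Filter Topology Module
open scoped ENNReal NNReal MeasureTheory RealInnerProductSpace ComplexConjugate FourierTransform

variable {V : Type} [NormedAddCommGroup V] [InnerProductSpace ℝ V] [FiniteDimensional ℝ V]
  [MeasurableSpace V] [BorelSpace V]

noncomputable def mW (W : V → ℝ) : Measure V := volume.withDensity fun x => (((W x).toNNReal : ℝ≥0) : ℝ≥0∞)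

variable {W : V → ℝ} {r : ℝ}

lemma mW_fin (hW : Integrable W) : IsFiniteMeasure (mW W) := isFiniteMeasure_withDensity_ofReal hW.2

lemma mW_univ (h0 : ∀ x, 0 ≤ W x) (hW : Integrable W) : mW W Set.univ = ENNReal.ofReal (∫ x, W x) := by
  rw [ofReal_integral_eq_lintegral_ofReal hW (Eventually.of_forall h0), mW, withDensity_apply _ MeasurableSet.univ,
    Measure.restrict_univ]
  rfl

lemma mW_int (h0 : ∀ x, 0 ≤ W x) (hW : Integrable W) (F : V → ℂ) :
    ∫ x, F x ∂mW W = ∫ x, (W x : ℂ) * F x := by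
  rw [mW, integral_withDensity_eq_integral_smul₀ hW.aemeasurable.real_toNNReal]
  congr 1; ext x
  rw [NNReal.smul_def, Real.coe_toNNReal _ (h0 x), Complex.real_smul]

lemma mW_ac : mW W ≪ volume := withDensity_absolutelyContinuous _ _

lemma mem_mW (hW : Integrable W) (hr : (finrank ℝ V : ℝ) < r) (f : LL V) (hf : WI (p r) (𝓕 f : LL V)) :
    MemLp f 2 (mW W) := by
  have := mW_fin hW
  obtain ⟨C, hC⟩ := bdd_ae hr f hf
  exact MemLp.of_bound ((Lp.aestronglyMeasurable f).mono_ac mW_ac) C (mW_ac.ae_le hC)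

lemma WI_W (hW : Integrable W) (hr : (finrank ℝ V : ℝ) < r) (f : LL V) (hf : WI (p r) (𝓕 f : LL V)) : WI W f := by
  obtain ⟨C, hC⟩ := bdd_ae hr f hf
  refine ⟨Lp.aestronglyMeasurable f, hW.mul_bdd (c := C ^ 2) ((Lp.aestronglyMeasurable f).norm.pow 2) ?_⟩
  filter_upwards [hC] with x hx
  rw [Real.norm_of_nonneg (by positivity)]
  exact pow_le_pow_left₀ (norm_nonneg _) hx 2

lemma FTphi_int (hW : Integrable W) (hr : (finrank ℝ V : ℝ) < r) {κ : ℝ} (hκ : 0 < κ) {u : V → ℂ}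
    (hu : MemLp u 2 (mW W)) : Integrable fun ξ => ‖FT (mW W) u ξ‖ ^ 2 * (1 / (p r ξ + κ ^ r)) := by
  have := mW_fin hW
  refine (phi_int hr hκ).bdd_mul (c := (∫ x, ‖u x‖ ∂mW W) ^ 2)
    ((FT_cont (hu.integrable one_le_two)).norm.pow 2).aestronglyMeasurable (Eventually.of_forall fun ξ => ?_)
  rw [Real.norm_of_nonneg (by positivity)]
  refine pow_le_pow_left₀ (norm_nonneg _) ((norm_integral_le_integral_norm _).trans (le_of_eq ?_)) 2
  simp only [norm_mul, ch_norm, one_mul]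

/-- Birman-Schwinger step -/
lemma bs (h0 : ∀ x, 0 ≤ W x) (hW : Integrable W) (hr : (finrank ℝ V : ℝ) < r) {κ : ℝ} (hκ : 0 < κ) (y : LL V)
    (hy : WI (p r) (𝓕 y : LL V))
    (h : (∫ ξ, p r ξ * ‖(𝓕 y : LL V) ξ‖ ^ 2) + κ ^ r * ‖y‖ ^ 2 ≤ ∫ x, W x * ‖y x‖ ^ 2) :
    ∫ x, W x * ‖y x‖ ^ 2 ≤ ∫ ξ, ‖FT (mW W) y ξ‖ ^ 2 * (1 / (p r ξ + κ ^ r)) := by
  have := mW_fin hW
  have hm := mem_mW hW hr y hy
  have hF := F_int hr _ hy
  have hE : 0 < κ ^ r := by positivity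
  have e1 : ((∫ x, W x * ‖y x‖ ^ 2 : ℝ) : ℂ) = ∫ ξ, conj ((𝓕 y : LL V) ξ) * FT (mW W) y ξ := by
    have hc : Integrable fun ξ => conj ((𝓕 y : LL V) ξ) :=
      hF.norm.mono' (Complex.continuous_conj.comp_aestronglyMeasurable hF.1)
        (Eventually.of_forall fun ξ => by rw [Complex.norm_conj])
    have := swap (hm.integrable one_le_two) hc (k := fun x ξ => ch ξ x) (ch_cont.comp continuous_swap)
      (fun x ξ => ch_norm ξ x)
    rw [← cross_self, ← mW_int h0 hW]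
    unfold FT
    rw [← this]
    refine integral_congr_ae ?_
    filter_upwards [mW_ac.ae_le (inv_ae y hF)] with x hx
    rw [mul_comm]
    congr 1
    conv_lhs => rw [hx]
    rw [← integral_conj]
    simp
  have hQ : Integrable fun ξ => (p r ξ + κ ^ r) * ‖(𝓕 y : LL V) ξ‖ ^ 2 := by
    simp only [add_mul]
    exact hy.2.add ((sq_int _).const_mul _)
  have e2 : ∫ ξ, (p r ξ + κ ^ r) * ‖(𝓕 y : LL V) ξ‖ ^ 2 ≤ ∫ x, W x * ‖y x‖ ^ 2 := by
    simp only [add_mul]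
    rw [integral_add hy.2 ((sq_int _).const_mul _), integral_const_mul, ← norm_sq_eq, Lp.norm_fourier_eq]
    exact h
  have e3 : ∫ x, W x * ‖y x‖ ^ 2 ≤ 1 / 2 * (∫ ξ, (p r ξ + κ ^ r) * ‖(𝓕 y : LL V) ξ‖ ^ 2) +
      1 / 2 * ∫ ξ, ‖FT (mW W) y ξ‖ ^ 2 * (1 / (p r ξ + κ ^ r)) := by
    rw [← integral_const_mul, ← integral_const_mul,
      ← integral_add (hQ.const_mul _) ((FTphi_int hW hr hκ hm).const_mul _)]
    calc ∫ x, W x * ‖y x‖ ^ 2 ≤ ‖((∫ x, W x * ‖y x‖ ^ 2 : ℝ) : ℂ)‖ := by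
          rw [Complex.norm_real]; exact le_abs_self _
      _ ≤ _ := by
          rw [e1]
          refine norm_integral_le_of_norm_le ((hQ.const_mul _).add ((FTphi_int hW hr hκ hm).const_mul _))
            (Eventually.of_forall fun ξ => ?_)
          have hp := p_nonneg r ξ
          rw [norm_mul, Complex.norm_conj]
          exact amgm (by positivity)
  linarith

lemma step (h0 : ∀ x, 0 ≤ W x) (hW : Integrable W) (hr : (finrank ℝ V : ℝ) < r) {κ t c : ℝ} (ht : 0 < t)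
    (h1 : t ≤ κ) (h2 : κ ≤ 2 * t) (hc : 0 < c) {μ : Measure V}
    (hμ : ∀ H : V → ℝ≥0∞, Measurable H → ∫⁻ ξ, ENNReal.ofReal (c * wt r t ξ) * H ξ ≤ ∫⁻ ξ, H ξ ∂μ)
    (y : LL V) (hy0 : y ≠ 0) (hy : WI (p r) (𝓕 y : LL V))
    (h : (∫ ξ, p r ξ * ‖(𝓕 y : LL V) ξ‖ ^ 2) + κ ^ r * ‖y‖ ^ 2 ≤ ∫ x, W x * ‖y x‖ ^ 2) :
    ∃ a : ℂ, MemLp (fun x => a * y x) 2 (mW W) ∧ ∫ x, conj (a * y x) * (a * y x) ∂mW W = 1 ∧
      ENNReal.ofReal (c / 2 ^ r * κ ^ (r - finrank ℝ V)) ≤ Phi (mW W) μ fun x => a * y x := by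
  have := mW_fin hW
  have hκ : 0 < κ := by linarith
  have hr0 : 0 ≤ r := le_trans (Nat.cast_nonneg _) hr.le
  have hb := bs h0 hW hr hκ y hy h
  set A := ∫ x, W x * ‖y x‖ ^ 2 with hA
  have hA0 : 0 < A := by
    have : 0 ≤ ∫ ξ, p r ξ * ‖(𝓕 y : LL V) ξ‖ ^ 2 :=
      integral_nonneg fun ξ => mul_nonneg (p_nonneg _ _) (sq_nonneg _)
    have : 0 < κ ^ r * ‖y‖ ^ 2 := mul_pos (by positivity) (pow_pos (norm_pos_iff.2 hy0) 2)
    linarith
  have hm := (mem_mW hW hr y hy).const_mul (((√A)⁻¹ : ℝ) : ℂ)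
  have hn : ‖(((√A)⁻¹ : ℝ) : ℂ)‖ ^ 2 = A⁻¹ := by
    rw [Complex.norm_real, Real.norm_eq_abs, sq_abs, inv_pow, Real.sq_sqrt hA0.le]
  refine ⟨((√A)⁻¹ : ℝ), hm, ?_, ?_⟩
  · rw [mW_int h0 hW, cross_self]
    simp only [norm_mul, mul_pow, hn, mul_left_comm _ A⁻¹, integral_const_mul]
    rw [← hA, inv_mul_cancel₀ hA0.ne', Complex.ofReal_one]
  · refine le_trans ?_ (hμ _ (FT_meas hm))
    set u := fun x => (((√A)⁻¹ : ℝ) : ℂ) * y x with hu
    have e : ∀ ξ, ‖FT (mW W) u ξ‖ ^ 2 = A⁻¹ * ‖FT (mW W) y ξ‖ ^ 2 := by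
      intro ξ
      rw [← hn, ← mul_pow, ← norm_mul]
      simp only [FT, hu, ← integral_const_mul, mul_left_comm]
    have h3 : 1 ≤ ∫ ξ, ‖FT (mW W) u ξ‖ ^ 2 * (1 / (p r ξ + κ ^ r)) := by
      simp only [e, mul_assoc, integral_const_mul]
      rw [le_inv_mul_iff₀ hA0, mul_one]
      exact hb
    have hk : 0 ≤ c / 2 ^ r * κ ^ (r - finrank ℝ V) := by positivity
    calc _ ≤ ENNReal.ofReal (∫ ξ, c / 2 ^ r * κ ^ (r - finrank ℝ V) *
            (‖FT (mW W) u ξ‖ ^ 2 * (1 / (p r ξ + κ ^ r)))) := by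
          rw [integral_const_mul]
          exact ENNReal.ofReal_le_ofReal (le_mul_of_one_le_right hk h3)
      _ ≤ _ := by
          rw [ofReal_integral_eq_lintegral_ofReal ((FTphi_int hW hr hκ hm).const_mul _)
            (Eventually.of_forall fun ξ => by have := p_nonneg r ξ; positivity)]
          refine lintegral_mono fun ξ => ?_
          simp only
          rw [← ENNReal.ofReal_mul (mul_nonneg hc.le (wt_nonneg r ht ξ))]
          apply ENNReal.ofReal_le_ofReal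
          have := phi_le hr0 ht h1 h2 ξ
          calc _ = c / 2 ^ r * ‖FT (mW W) u ξ‖ ^ 2 * (κ ^ (r - finrank ℝ V) * (1 / (p r ξ + κ ^ r))) := by ring
            _ ≤ c / 2 ^ r * ‖FT (mW W) u ξ‖ ^ 2 * (2 ^ r * wt r t ξ) := by gcongr
            _ = _ := by field_simp

lemma comb {s : ℝ} (hr : (finrank ℝ V : ℝ) < 2 * s) {U : V → ℝ} (hU : Integrable fun x => max (U x) 0)
    (hU' : AEStronglyMeasurable (fun x => max (-U x) 0) volume) {ι : Type} [Fintype ι] {f : ι → LL V}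
    (ho : Orthonormal ℂ f) {e : ι → ℝ} (he : ∀ i, IsEig s U (f i) (e i)) {E : ℝ} (hE : ∀ i, e i ≤ -E) (c : ι → ℂ) :
    WI (p (2 * s)) (𝓕 (∑ i, c i • f i) : LL V) ∧
    (∫ ξ, p (2 * s) ξ * ‖(𝓕 (∑ i, c i • f i) : LL V) ξ‖ ^ 2) + E * ‖∑ i, c i • f i‖ ^ 2 ≤
      ∫ x, max (U x) 0 * ‖(∑ i, c i • f i : LL V) x‖ ^ 2 := by
  have hr0 : 0 ≤ 2 * s := le_trans (Nat.cast_nonneg _) hr.le
  have hp := (p_cont (V := V) hr0).aestronglyMeasurable (μ := volume)
  have eF : (𝓕 (∑ i, c i • f i) : LL V) = ∑ i, c i • 𝓕 (f i) := by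
    simp only [FourierTransform.fourier_sum, FourierTransform.fourier_smul]
  have k1 : ∀ i, WI (p (2 * s)) (𝓕 (f i) : LL V) := fun i => ⟨Lp.aestronglyMeasurable _, (he i).1.1⟩
  have k2 : ∀ i, WI (fun x => max (-U x) 0) (f i) := fun i => ⟨Lp.aestronglyMeasurable _, (he i).1.2⟩
  have k3 : ∀ i, WI (fun x => max (U x) 0) (f i) := fun i => WI_W hU hr _ (k1 i)
  set y : LL V := ∑ i, c i • f i with hy
  have y1 : WI (p (2 * s)) (𝓕 y : LL V) := by
    rw [eF]
    exact (WI.sum (p_nonneg _) hp _ c k1).congr (coe_comb c _).symm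
  have y2 : WI (fun x => max (-U x) 0) y :=
    (WI.sum (fun x => le_max_right _ _) hU' _ c k2).congr (coe_comb c _).symm
  have y3 : WI (fun x => max (U x) 0) y := WI_W hU hr _ y1
  have split : ∀ g : LL V, WI (fun x => max (-U x) 0) g → WI (fun x => max (U x) 0) g →
      form s U y g = (∫ ξ, (p (2 * s) ξ : ℂ) * (conj ((𝓕 y : LL V) ξ) * (𝓕 g : LL V) ξ)) -
        ((∫ x, ((max (U x) 0 : ℝ) : ℂ) * (conj (y x) * g x)) -
          ∫ x, ((max (-U x) 0 : ℝ) : ℂ) * (conj (y x) * g x)) := by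
    intro g g2 g3
    rw [← integral_sub (WI.cross (fun x => le_max_right _ _) hU.1 y3 g3)
      (WI.cross (fun x => le_max_right _ _) hU' y2 g2)]
    unfold form hat
    congr 2; ext x
    rw [← sub_mul, ← Complex.ofReal_sub, max_zero_sub_max_neg_zero_eq_self]
  have lin : form s U y y = ∑ i, c i * form s U y (f i) := by
    rw [split y y2 y3]
    simp only [fun i => split (f i) (k2 i) (k3 i), mul_sub, Finset.sum_sub_distrib]
    rw [← cross_sum (p_nonneg _) hp c _ k1 y1, ← cross_sum (fun x => le_max_right _ _) hU.1 c _ k3 y3,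
      ← cross_sum (fun x => le_max_right _ _) hU' c _ k2 y2, ← eF]
  have dom : InDom s U y := ⟨y1.2, y2.2⟩
  have ip : ∀ i, inner ℂ y (f i) = conj (c i) := fun i => ho.inner_left_fintype c i
  have lin2 : form s U y y = ((∑ i, e i * ‖c i‖ ^ 2 : ℝ) : ℂ) := by
    rw [lin]
    push_cast
    refine Finset.sum_congr rfl fun i _ => ?_
    have e0 : ∫ x, conj (y x) * f i x = inner ℂ y (f i) := by
      rw [L2.inner_def]; simp only [RCLike.inner_apply, mul_comm]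
    rw [(he i).2 y dom, e0, ip, ← Complex.mul_conj']
    ring
  have nrm : ‖y‖ ^ 2 = ∑ i, ‖c i‖ ^ 2 := by
    have : inner ℂ y y = ((∑ i, ‖c i‖ ^ 2 : ℝ) : ℂ) := by
      conv_lhs => enter [3]; rw [hy]
      rw [inner_sum]
      push_cast
      refine Finset.sum_congr rfl fun i _ => ?_
      rw [inner_smul_right, ip, Complex.mul_conj']
    rw [← inner_self_eq_norm_sq (𝕜 := ℂ), this]
    simp only [RCLike.re_to_complex, Complex.ofReal_re]
  rw [split y y2 y3, cross_self, cross_self, cross_self, ← Complex.ofReal_sub, ← Complex.ofReal_sub,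
    Complex.ofReal_inj] at lin2
  refine ⟨y1, ?_⟩
  have h1 : 0 ≤ ∫ x, max (-U x) 0 * ‖y x‖ ^ 2 := integral_nonneg fun x => mul_nonneg (le_max_right _ _) (sq_nonneg _)
  have h2 : ∑ i, e i * ‖c i‖ ^ 2 ≤ ∑ i, -E * ‖c i‖ ^ 2 :=
    Finset.sum_le_sum fun i _ => mul_le_mul_of_nonneg_right (hE i) (sq_nonneg _)
  rw [← Finset.mul_sum, ← nrm] at h2
  linarith

theorem main {s : ℝ} (hr : (finrank ℝ V : ℝ) < 2 * s) : ∃ L : ℝ, ∀ U : V → ℝ, Integrable (fun x => max (U x) 0) →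
    LocallyIntegrable (fun x => max (-U x) 0) → ∀ (N : ℕ) (f : Fin N → LL V) (e : Fin N → ℝ), Orthonormal ℂ f →
      (∀ k, e k < 0 ∧ IsEig s U (f k) (e k)) →
      ∑ k, |e k| ^ (1 - finrank ℝ V / (2 * s)) ≤ L * ∫ x, max (U x) 0 := by
  obtain ⟨c, hc, hch⟩ := chain hr
  have hr0 : 0 < 2 * s := lt_of_le_of_lt (Nat.cast_nonneg _) hr
  refine ⟨2 ^ (2 * s) / c, fun U hU hU' N f e ho he => ?_⟩
  have h0 : ∀ x, 0 ≤ max (U x) 0 := fun x => le_max_right _ _
  have := mW_fin hU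
  set σ := Tuple.sort e with hσ
  have hmono : Monotone (e ∘ σ) := Tuple.monotone_sort e
  set κ : ℕ → ℝ := fun k => if h : k < N then (-e (σ ⟨k, h⟩)) ^ (2 * s)⁻¹ else 1 with hκ
  have κ0 : ∀ k, 0 < κ k := by
    intro k
    simp only [hκ]
    split_ifs with h
    · exact rpow_pos_of_pos (neg_pos.2 (he _).1) _
    · exact one_pos
  have κr : ∀ k (h : k < N), κ k ^ (2 * s) = -e (σ ⟨k, h⟩) := by
    intro k h
    simp only [hκ, dif_pos h]
    exact rpow_inv_rpow (neg_pos.2 (he _).1).le hr0.ne'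
  have κm : ∀ k, k + 1 < N → κ (k + 1) ≤ κ k := by
    intro k h
    simp only [hκ, dif_pos h, dif_pos (show k < N by omega)]
    refine rpow_le_rpow (neg_pos.2 (he _).1).le (neg_le_neg ?_) (by positivity)
    exact hmono (show (⟨k, by omega⟩ : Fin N) ≤ ⟨k + 1, h⟩ from Fin.mk_le_mk.2 (by omega))
  set t0 := (1 + ∑ k ∈ Finset.range N, (κ k)⁻¹)⁻¹ with ht0
  have hS : 0 ≤ ∑ k ∈ Finset.range N, (κ k)⁻¹ := Finset.sum_nonneg fun k _ => (inv_pos.2 (κ0 k)).le
  have t0p : 0 < t0 := by positivity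
  have t0l : ∀ k < N, t0 ≤ κ k := by
    intro k hk
    rw [ht0, inv_le_comm₀ (by positivity) (κ0 k)]
    have := Finset.single_le_sum (f := fun k => (κ k)⁻¹) (fun k _ => (inv_pos.2 (κ0 k)).le) (Finset.mem_range.2 hk)
    linarith
  obtain ⟨μ, m1, m2, m3⟩ := hch t0 t0p
  set J : ℕ → ℕ := fun k => Nat.log 2 ⌊κ k / t0⌋₊ with hJ
  have J1 : ∀ k < N, t0 * 2 ^ J k ≤ κ k ∧ κ k ≤ 2 * (t0 * 2 ^ J k) := by
    intro k hk
    have a1 : 1 ≤ ⌊κ k / t0⌋₊ := Nat.le_floor (by rw [Nat.cast_one, one_le_div t0p]; exact t0l k hk)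
    have a2 : 2 ^ J k ≤ ⌊κ k / t0⌋₊ := Nat.pow_log_le_self 2 (by omega)
    have a3 : ⌊κ k / t0⌋₊ < 2 ^ (J k + 1) := Nat.lt_pow_succ_log_self (by norm_num) _
    have a4 : (⌊κ k / t0⌋₊ : ℝ) ≤ κ k / t0 := Nat.floor_le (div_pos (κ0 k) t0p).le
    have a5 : κ k / t0 < ⌊κ k / t0⌋₊ + 1 := Nat.lt_floor_add_one _
    have a6 : ((2 : ℝ) ^ J k) ≤ ⌊κ k / t0⌋₊ := by exact_mod_cast a2
    have a7 : (⌊κ k / t0⌋₊ : ℝ) + 1 ≤ 2 ^ (J k + 1) := by exact_mod_cast a3
    constructor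
    · rw [mul_comm, ← le_div_iff₀ t0p]; linarith
    · have := a5.le.trans a7
      rw [div_le_iff₀ t0p, pow_succ] at this
      linarith
  have key := hlt (m := mW fun x => max (U x) 0) μ m1 m2 N J
    (fun k hk => Nat.log_mono_right (Nat.floor_mono (by gcongr; exact κm k hk)))
    (fun k => ENNReal.ofReal (c / 2 ^ (2 * s) * κ k ^ (2 * s - finrank ℝ V))) (by
      intro k hk A hA
      set g : Fin (k + 1) → LL V := fun i => f (σ (Fin.castLE hk i)) with hg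
      have go : Orthonormal ℂ g := ho.comp _ (σ.injective.comp (Fin.castLE_injective hk))
      have ge : ∀ i, IsEig s U (g i) (e (σ (Fin.castLE hk i))) := fun i => (he _).2
      have gm : ∀ i, MemLp (g i) 2 (mW fun x => max (U x) 0) := fun i =>
        mem_mW hU hr _ ⟨Lp.aestronglyMeasurable _, (ge i).1.1⟩
      set M : Matrix (Fin k) (Fin (k + 1)) ℂ := fun i j => ∫ x, conj (A i x) * g j x ∂mW fun x => max (U x) 0
        with hM
      obtain ⟨b, hb, hb0⟩ := Submodule.exists_mem_ne_zero_of_ne_bot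
        (LinearMap.ker_ne_bot_of_finrank_lt (f := M.mulVecLin) (by simp))
      obtain ⟨y1, y2⟩ := comb hr hU hU'.aestronglyMeasurable go ge (E := κ k ^ (2 * s)) (fun i => by
        rw [κr k hk, neg_neg]
        exact hmono (show Fin.castLE hk i ≤ ⟨k, hk⟩ from Fin.le_def.2 (by simpa using Nat.lt_succ_iff.1 i.2))) b
      have y0 : ∑ i, b i • g i ≠ 0 := fun h =>
        hb0 (funext (Fintype.linearIndependent_iff.1 go.linearIndependent b h))
      obtain ⟨a, a1, a2, a3⟩ := step h0 hU hr (by positivity) (J1 k hk).1 (J1 k hk).2 hc (m3 (J k)) _ y0 y1 y2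
      refine ⟨_, a1, a2, fun i => ?_, a3⟩
      have hi := congrFun (LinearMap.mem_ker.1 hb) i
      simp only [Matrix.mulVecLin_apply, Matrix.mulVec, dotProduct, hM, Pi.zero_apply] at hi
      have hint : ∀ j, Integrable (fun x => conj (A i x) * g j x) (mW fun x => max (U x) 0) := fun j =>
        MemLp.integrable_mul (hA i).star (gm j)
      calc _ = ∫ x, a * ∑ j, (conj (A i x) * g j x) * b j ∂mW fun x => max (U x) 0 := by
            refine integral_congr_ae ?_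
            filter_upwards [mW_ac.ae_le (coe_comb b g)] with x hx
            rw [hx, mul_left_comm, Finset.mul_sum]
            congr 1
            exact Finset.sum_congr rfl fun j _ => by ring
        _ = 0 := by
            rw [integral_const_mul, integral_finsetSum _ fun j _ => (hint j).mul_const _]
            simp only [integral_mul_const, hi, mul_zero])
  rw [mW_univ h0 hU, ← ENNReal.ofReal_sum_of_nonneg fun k _ => by have := κ0 k; positivity,
    ENNReal.ofReal_le_ofReal_iff (integral_nonneg h0), ← Finset.mul_sum] at key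
  have e1 : ∑ k, |e k| ^ (1 - finrank ℝ V / (2 * s)) = ∑ k ∈ Finset.range N, κ k ^ (2 * s - finrank ℝ V) := by
    rw [← Equiv.sum_comp σ, Finset.sum_range]
    refine Finset.sum_congr rfl fun k _ => ?_
    rw [abs_of_neg (he _).1, ← κr k k.2, ← rpow_mul (κ0 k).le]
    rw [mul_sub, mul_one, mul_div_cancel₀ _ hr0.ne']
  rw [e1, div_mul_eq_mul_div, le_div_iff₀ hc]
  rw [div_mul_eq_mul_div, div_le_iff₀ (by positivity)] at key
  linarith

end Pool.Agent.H.MP_114ef8_mp
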